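import Pool.Agent.T2H37.GH.Final

/-!
# The case of coniveau one of the generalized Hodge conjecture for Fermat hypersurfaces

Let `X` be the Fermat hypersurface of dimension `n ≥ 1` and degree `m`, `3 ≤ m ≤ 2 n + 1`, and let
`a` be an integral combination of linear automorphisms of `X`. If `a` acts as zero on the space
`H^{n,0}(X)` of the holomorphic `n`-forms then `a x` vanishes on a dense open subset of `X`, for all
primitive classes `x` in `H^n(X)`.

By Griffiths the primitive classes are the residues of the forms `P Ω / F ^ k`, `P` a form of degree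
`k m - n - 2`, `k ≥ 1`, where `F = ∑ X i ^ m`, and `H^{n,0}(X)` is the case `k = 1`; an automorphism
`g` maps `P` to `det g • P (g x)`.

So all sub-Hodge structures of `H^n(X, ℚ)` without part of type `(n, 0)` vanish on a dense open
subset of `X` (they are contained in one which is the image of such an `a`, up to classes of linear
sections). For the smooth projective models `Y` of the quotients of `X` by finite groups, and all
smooth projective `Y` of dimension `n` dominated by `X`: if `h^{n,0}(Y) = 0` then there is a dense
open subset `U` of `Y` such that `H^n(Y, ℚ) → H^n(U, ℚ)` is zero.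
-/

set_option autoImplicit false

namespace Pool.Agent.Results.MP_1c689d_ag.FermatConiveauOne

open Pool.Agent.T2H37.FB Pool.Agent.T2H37.GH MvPolynomial

theorem result (n m : ℕ) (hn : 1 ≤ n) (hm : 3 ≤ m) (hmn : m ≤ 2 * n + 1)
    (a : FermatGroup (n + 2) m →₀ ℤ)
    (ha : ∀ (d : ℕ) (P : MvPolynomial (Fin (n + 2)) ℂ), d + (n + 2) = m → P.IsHomogeneous d →
      (a.sum fun g c => C ((c : ℂ) * g.1.1.det) * compose g.1.1 P) = 0)
    (k d : ℕ) (P : MvPolynomial (Fin (n + 2)) ℂ) (hd : d + (n + 2) = k * m)
    (hP : P.IsHomogeneous d) :
    VanishesGenerically (fermatForm (n + 2) m)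
      (a.sum fun g c => C ((c : ℂ) * g.1.1.det) * compose g.1.1 P) k :=
  main hm (by omega) (by omega) a ha hd hP

end Pool.Agent.Results.MP_1c689d_ag.FermatConiveauOne
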