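import Pool.Agent.T2H37.LT.Gen

/-!
# The case of coniveau one of the generalized Hodge conjecture for the varieties generated by products
# of varieties of level two with a variety

Let `Y_1, ..., Y_r` be smooth projective complex varieties, `Y_i` of even dimension `2 f_i + 2`,
whose rational cohomology is spanned by classes of algebraic cycles and by a polarised Hodge
structure `T_i` of level two in `H^(2 f_i + 2)(Y_i)` of coniveau `f_i`. For `f_i = 0` these are the
surfaces `Y_i` with first Betti number zero, and `T_i` is the transcendental part of `H^2(Y_i)`; for
`f_i = 1` they can be fourfolds with `h^(4, 0) = 0`, without odd cohomology and with `CH_0 = ℤ`, such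
as the very general hypersurfaces of degree at most five. Let `p_i > 0`, `q_i > 0`, `p_i` be the Hodge
numbers of `T_i`. Assume that the Hodge group of the sum `T` of the `T_i` is the product of the
groups `SO(T_i)`, of ranks at least `3` and not `4` (`Lev2`, `Full`); this holds for very general
members of many families, and also (`Big`) if all endomorphisms of the Hodge structure `T` are given
by rational numbers on the `T_i` and `p_i = 1`, `q_i ≠ 0, 2` or
`2 p_i ^ 2 (p_i ^ 2 + 1) < (q_i - 2 p_i) (q_i + p_i)` for all `i`.

Let `Z` be any smooth projective variety which satisfies the generalized Hodge conjecture (for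
example a point, a curve or a surface) and whose rational cohomology `V` is generated by rational Hodge
structures `G_1, ..., G_N` (it embeds in a sum of tensor powers of their sum `G`; `GenBy`) that are
small compared with the `T_i`: for all `i` and `j`, some Hodge number of the adjoint Hodge structure
`so(T_i)` is larger than the same Hodge number of `so(G_j)` or `sp(G_j)` (`Small`); by `SmallNumbers`
this holds if each `G_j` has

* level one and dimension `2 d`, and for each `i` either `p_i ≥ 2` or `d (d + 1) < 2 p_i q_i`; or
* level two and Hodge numbers `p', q', p'`, and for each `i` either `p' < p_i` or
  `p' q' < p_i q_i`.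

Let `X` be any smooth projective variety which is generated up to coniveau one by products of copies of
the `Y_i`, each of them at most `p_i` times, and of `Z` (`IsGeneratedBy`): the diagonal of `X` is a sum
of compositions of correspondences `X → P → X` of degrees `k ≥ 0` and `- k` for such products `P`, up to
a cycle supported on `X × D` for a closed subset `D ≠ X`. This is the case for all `X` dominated by such
a product `P`; for all `X` whose motive is a summand of a sum of Tate twists of the motives of such
products, for example for the Hilbert schemes of `m ≤ p_i` points of a surface `Y_i` and their products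
with `Z`; for all `X` with a morphism from `P` to `X` which is surjective on the Chow groups of
zero-cycles with rational coefficients; and for all `X` with a surjective morphism, with rationally
connected general fibre, onto a variety dominated by `P`.

If `h^(i, 0)(X) = 0` then all of `H^i(X, ℚ)` vanishes on a dense Zariski open subset of `X`, for all
`i`.
-/

set_option autoImplicit false

open Matrix Finset

namespace Pool.Agent.Results.MP_1c689d_ag.GeneratedByLevelTwo

open Pool.Agent.W544.PG Pool.Agent.TH164.HC Pool.Agent.TH164.GHC Pool.Agent.T2H37.LT

/-- Grothendieck's conjecture in coniveau one, in all degrees, for all varieties `X` generated up to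
coniveau one by products of the varieties `Y_i` of level two, each of them at most `p i` times, and of
`Z`. The cohomology of the `Y_i` is the sum of `ℚ^s` (algebraic classes; the `e`-th is on `Y_(d e)` and
has codimension `ν e`) and of `T = ℚ^n` (the `b`-th basis vector is in `T_(c b)`); the cohomology of `Z`
is `V`, the cohomology of `X` is `H`, and `NX` is the space of the classes on `X` which vanish on a dense
open subset. -/
theorem result {n r g N s v : ℕ} (T : HS n) (c : Fin n → Fin r) (p q f : Fin r → ℕ)
    (G : Gens g N) (V : Coh v) (Nz : ℕ → Submodule ℚ (Fin v → ℚ)) (d : Fin s → Fin r)
    (ν : Fin s → ℕ) (hT : Lev2 T c p q ∨ T.Big c p q)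
    (hG : Small T c G ∨ SmallNumbers G p q) (hV : V.GenBy G) (hZ : GHCZ V Nz)
    {x : ℕ} (H : Coh x) (NX : Submodule ℚ (Fin x → ℚ)) (heff : IsEffective H)
    (hgen : IsGeneratedBy T c p f V d ν Nz H NX) : ConiveauOne H NX :=
  coniveauOne_of_generated hT hG hV hZ hgen heff

end Pool.Agent.Results.MP_1c689d_ag.GeneratedByLevelTwo
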