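import Pool.Agent.T2H37.CT.Gen

/-!
# The case of coniveau one of the generalized Hodge conjecture for the varieties generated by products
# of powers of abelian varieties with many independent periods and a variety

Let `A = ℂ ^ g / (ℤ ^ g + Z ℤ ^ g)` be any principally polarized abelian variety (every complex abelian
variety is isogenous to one) such that `D` of the entries of the period matrix `Z` are algebraically
independent over a subfield `K` of the complex numbers; `A` may be simple or not, and nothing is
assumed on its endomorphisms or its Hodge group. Then `A` is isogenous to a product of principally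
polarized abelian varieties `A₁` and `A₂`, where `A₂` is small: its dimension is at most `ρ` whenever
`g ^ 2 < 4 D` and `(ρ + 1) ^ 2 + 2 (g - ρ - 1) (g - ρ) < 4 D`, and the following holds.

Let `Y` be a smooth projective variety which satisfies the generalized Hodge conjecture (for example a
point, a curve or a surface), and let `Y` be of CM type or with a Hodge filtration defined over the field
generated by `K` and the periods of `A₂` (the entries of its period matrix). Let `X` be a smooth
projective variety which is generated by `A₁ ^ n × Y` up to coniveau one, for some `n`: the diagonal of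
`X` is a sum of compositions of correspondences `X → A₁ ^ n × Y → X` of degrees `r ≥ 0` and `- r`, up to
a cycle supported on `X × D` for a closed subset `D ≠ X`. This is the case for all `X` dominated by
`A₁ ^ n × Y`; for all `X` whose motive is a summand of a sum of Tate twists of the motive of
`A₁ ^ n × Y`; for all `X` with a morphism from `A₁ ^ n × Y` to `X` which is surjective on the Chow groups
of zero-cycles with rational coefficients; and for all `X` with a surjective morphism, with rationally
connected general fibre, onto a variety dominated by `A₁ ^ n × Y`.

If `h^(i, 0)(X) = 0` then all of `H^i(X, ℚ)` vanishes on a dense Zariski open subset of `X`, for all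
`i`. If `A₂ = 0` the same is true for all `X` generated by `A ^ n × Y`, `Y` of CM type or with a Hodge
filtration defined over `K`. If only correspondences of degree zero are needed then the generalized Hodge
conjecture for `Y` is only used in coniveau one: then take `N j` to be the space of classes on `Y` which
vanish on a dense open subset, for all `j ≥ 1`.

For example, `A₂ = 0` if `D > g (g - 1) / 2`, that is if more than `g (g - 1) / 2` of the
`g (g + 1) / 2` periods are algebraically independent over `K`.
-/

set_option autoImplicit false

namespace Pool.Agent.Results.MP_1c689d_ag.ManyPeriods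

open Matrix Pool.Agent.H204R3.CM Pool.Agent.W437.HC Pool.Agent.W437.HD Pool.Agent.TH131.GHC
  Pool.Agent.TH504.CB Pool.Agent.X311 Pool.Agent.X311.Cn1 Pool.Agent.T2H37.CT

/-- Grothendieck's conjecture in coniveau one for all varieties generated by `A ^ n × Y` up to coniveau
one, where `A` is the abelian variety with period matrix `Z` and `V` is the cohomology of `Y`: if `N j`
(the classes on `Y` of coniveau at least `j`) contains all sub-Hodge structures of `H^e(Y)` of level at
most `e - 2 j`, then for all varieties (with cohomology `H`, and classes `NX` which vanish on a dense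
open subset) generated by `A ^ n × Y` and all `i` with `h^(i, 0) = 0` all classes of degree `i` are in
`NX`. -/
def ConiveauOneGenerated {g : ℕ} (Z : Matrix (Fin g) (Fin g) ℂ) {v : ℕ} (V : Coh v) : Prop :=
  ∀ N : ℕ → Submodule ℚ (Fin v → ℚ), GHCZ V N → ∀ (n x : ℕ) (H : Coh x)
    (NX : Submodule ℚ (Fin x → ℚ)), IsEffective H → IsGeneratedBy (perPow Z n) V N H NX →
    ConiveauOne H NX

theorem generated_of_transfers {g : ℕ} {Z : Matrix (Fin g) (Fin g) ℂ} (hZ : IsPeriodMatrix Z)
    {v : ℕ} {V : Coh v} (h : TransfersGHC Z V) : ConiveauOneGenerated Z V :=
  fun N hN n _ _ _ heff hgen => coniveauOne_of_generated hgen heff (h N hN n)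
    (uniq_of_span (span_perPow Z hZ.2 n))

/-- Grothendieck's conjecture in coniveau one for the varieties generated by `A ^ n × Y`, for abelian
varieties `A` with many algebraically independent periods. -/
theorem result {g : ℕ} (Z : Matrix (Fin g) (Fin g) ℂ) (hZ : IsPeriodMatrix Z)
    (K : Subfield ℂ) {D : ℕ} (p : Fin D → Fin g × Fin g)
    (hp : AlgebraicIndependent K fun s => Z (p s).1 (p s).2) :
    ∃ (b r : ℕ) (Z₁ : Matrix (Fin b) (Fin b) ℂ) (Z₂ : Matrix (Fin r) (Fin r) ℂ),
      IsPeriodMatrix Z₁ ∧ IsPeriodMatrix Z₂ ∧ IsIsogenousToProduct Z Z₁ Z₂ ∧ b + r = g ∧
      SmallQuotient g D r ∧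
      (∀ (v : ℕ) (V : Coh v), IsOfCMType V ∨ HasFiltrationOver (periodField K Z₂) V →
        ConiveauOneGenerated Z₁ V) ∧
      (r = 0 → ∀ (v : ℕ) (V : Coh v), IsOfCMType V ∨ HasFiltrationOver K V →
        ConiveauOneGenerated Z V) := by
  obtain ⟨b, r, Z₁, Z₂, h1, h2, h3, h4, h5, h6, h7⟩ := ghc_periods Z hZ.1 hZ.2 K p hp
  exact ⟨b, r, Z₁, Z₂, h1, h2, h3, h4, h5, fun v V hV => generated_of_transfers h1 (h6 v V hV),
    fun hr v V hV => generated_of_transfers hZ (h7 hr v V hV)⟩

end Pool.Agent.Results.MP_1c689d_ag.ManyPeriods
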