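import Pool.Agent.T2H37.CT.Gen
import Pool.Agent.TH131.GHC.Final
import Pool.Agent.TH125.RankTwo
import Pool.Agent.X311.IndepF

/-!
# The case of coniveau one of the generalized Hodge conjecture for the varieties generated by products
# of abelian varieties of symplectic type and a variety

Let `A 1, ..., A n` be simple abelian varieties such that the centre of the endomorphism algebra of
`A i` is totally real (types I, II and III in the classification of Albert) and such that some nonzero
complex matrix of rank at most two kills all Hodge tensors of `A i` (so it is an element of the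
complexified Lie algebra of the Hodge group). Let `A` be a product of copies of the `A i`, with any
multiplicities, and let `Y` be a smooth projective variety which satisfies the generalized Hodge
conjecture (for example a point, a curve or a surface), such that

* `Y` is of CM type: the Mumford-Tate group of the cohomology of `Y` is commutative; or
* the Hodge structures of `A` and `Y` are independent: the Hodge group of `A × Y` is the product of
  the Hodge groups of `A` and of `Y`; or
* each `A i` has a period (an entry of its period matrix) which is transcendental over a field `K`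
  over which the Hodge filtration of `Y` is defined (for a fixed variety `Y` this is true for very
  general members of all families of the `A i`).

Let `X` be any smooth projective variety which is generated by `A × Y` up to coniveau one: the diagonal
of `X` is a sum of compositions of correspondences `X → A × Y → X` of degrees `r ≥ 0` and `- r`, up to a
cycle supported on `X × D` for a closed subset `D ≠ X`. This is the case for all `X` dominated by
`A × Y`; for all `X` whose motive is a summand of a sum of Tate twists of the motive of `A × Y`; by
the decomposition of the diagonal, for all `X` with a morphism from `A × Y` to `X` which is surjective on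
the Chow groups of zero-cycles with rational coefficients; and for all `X` with a surjective morphism,
with rationally connected general fibre, onto a variety dominated by `A × Y`.

If `h^(i, 0)(X) = 0` then all of `H^i(X, ℚ)` vanishes on a dense Zariski open subset of `X`, for all
`i`. If only correspondences of degree zero are needed then the generalized Hodge conjecture for `Y` is
only used in coniveau one: then take `N j` to be the space of classes on `Y` which vanish on a dense
open subset, for all `j ≥ 1`.
-/

set_option autoImplicit false

namespace Pool.Agent.Results.MP_1c689d_ag.SymplecticTimesVariety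

open Matrix Pool.Agent.H204R3.CM Pool.Agent.H194R3.CM Pool.Agent.W437.HC Pool.Agent.W437.HD
  Pool.Agent.W437.HP Pool.Agent.TH131.GHC Pool.Agent.X311 Pool.Agent.X311.Cn1
  Pool.Agent.T2H37.CT

/-- The rational matrix `φ` is an endomorphism (with rational coefficients) of the abelian variety
`ℂ ^ g / (ℤ ^ g + Z ℤ ^ g)`: its action on the rational homology comes from a complex linear map
`M` of the tangent space (`perOne Z` is the inclusion `(a, b) ↦ a + Z b`). -/
def IsEndomorphism {g : ℕ} (Z : Matrix (Fin g) (Fin g) ℂ)
    (φ : Matrix (Fin g ⊕ Fin g) (Fin g ⊕ Fin g) ℚ) : Prop :=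
  ∃ M : Matrix (Fin g) (Fin g) ℂ, ∀ w, perOne Z (φ.mulVec w) = M.mulVec (perOne Z w)

/-- The centre of the endomorphism algebra is totally real: an endomorphism which commutes with all
endomorphisms is symmetric for the principal polarization. -/
def HasRealCentre {g : ℕ} (Z : Matrix (Fin g) (Fin g) ℂ) : Prop :=
  ∀ φ, IsEndomorphism Z φ → (∀ ψ, IsEndomorphism Z ψ → φ * ψ = ψ * φ) →
    φ.transpose * fromBlocks 0 1 (-1) 0 = fromBlocks 0 1 (-1) 0 * φ

/-- The matrix `X`, acting as a derivation, kills all rational tensors on the homology which are
killed by the Hodge operator `DZ Z = -i J` (the Hodge tensors), `J` the matrix of the complex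
structure. -/
def KillsHodgeTensors {g : ℕ} (Z : Matrix (Fin g) (Fin g) ℂ)
    (X : Matrix (Fin g ⊕ Fin g) (Fin g ⊕ Fin g) ℂ) : Prop :=
  ∀ (n : ℕ) (c : (Fin n → Fin g ⊕ Fin g) → ℚ), act (DZ Z) (cst ℂ c) = 0 → act X (cst ℂ c) = 0

/-- The Hodge structures of the product `A` of the abelian varieties `ℂ ^ g / (ℤ ^ g + Z ℤ ^ g)`, `Z`
one of the `Z i`, and of the variety are independent (`Indep`): every rational subspace of the
tensors on the homology of `A` with values in the cohomology of the variety which is stable under
the Hodge operator (a sub-Hodge structure) is stable under the Hodge operator of `A`. Here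
`DZ (bigD ℂ Z)` is the Hodge operator `-i J` on the complex homology of `A`. -/
def IsIndependent {n v : ℕ} {d : Fin n → ℕ} (Z : ∀ i, Matrix (Fin (d i)) (Fin (d i)) ℂ)
    (V : Coh v) : Prop :=
  Indep (DZ (bigD ℂ Z)) V.z

/-- Each of the abelian varieties has a period, an entry of its period matrix, which is
transcendental over a subfield `K` of the complex numbers such that the Hodge filtration of the
variety is defined over `K`. -/
def HasTranscendentalPeriods {n v : ℕ} {d : Fin n → ℕ} (Z : ∀ i, Matrix (Fin (d i)) (Fin (d i)) ℂ)
    (V : Coh v) : Prop :=
  ∃ K : Subfield ℂ, HasFiltrationOver K V ∧ ∀ i, ∃ a b, Transcendental K (Z i a b)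

/-- Grothendieck's conjecture in coniveau one, in all degrees, for all varieties `X` generated up to
coniveau one by the product of the abelian varieties `A (c 1), ..., A (c m)` and a variety `Y` which
satisfies the generalized Hodge conjecture, where the `A i` are simple abelian varieties with totally
real centres of the endomorphism algebras and Hodge Lie algebras with elements of rank at most two. -/
theorem result {n : ℕ} {d : Fin n → ℕ} (Z : ∀ i, Matrix (Fin (d i)) (Fin (d i)) ℂ)
    (hper : ∀ i, IsPeriodMatrix (Z i)) (hsimple : ∀ i, IsSimpleAV (Z i))
    (hcentre : ∀ i, HasRealCentre (Z i))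
    (hrank : ∀ i, ∃ X, X ≠ 0 ∧ X.rank ≤ 2 ∧ KillsHodgeTensors (Z i) X)
    {v : ℕ} (V : Coh v) (hV : IsOfCMType V ∨ IsIndependent Z V ∨ HasTranscendentalPeriods Z V)
    (N : ℕ → Submodule ℚ (Fin v → ℚ)) (hN : GHCZ V N) {m : ℕ} (c : Fin m → Fin n)
    {x : ℕ} (H : Coh x) (NX : Submodule ℚ (Fin x → ℚ)) (heff : IsEffective H)
    (hgen : IsGeneratedBy (perFam Z c) V N H NX) : ConiveauOne H NX := by
  have hp : ∀ i, Pool.Agent.W437.HR.HasPcs (DZ (Z i)) := by
    intro i
    obtain ⟨X, hX0, hXr, hX⟩ := hrank i
    refine Pool.Agent.TH125.hasPcs_of_rank (hper i).1 (hper i).2 (hsimple i) ?_ hX hX0 hXr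
    intro φ M hφ hc
    refine hcentre i φ ⟨M, hφ⟩ fun ψ hψ => ?_
    obtain ⟨N, hN⟩ := hψ
    exact hc ψ N hN
  refine coniveauOne_of_generated hgen heff
    (ghc_rel Z (fun i => (hper i).1) (fun i => (hper i).2) hp c V ?_ hN)
    (uniq_of_span (span_perFam Z (fun i => (hper i).2) c))
  rcases hV with h | h | h
  · exact (polOf (bigD_symm fun i => (hper i).1) (imM_bigD_posDef Z fun i => (hper i).2)).indep_cm
      (simp_prod Z (fun i => (hper i).1) (fun i => (hper i).2) hp) h
  · exact h
  · obtain ⟨K, hK, ht⟩ := h
    refine indep_of_raises (fun i => (hper i).1) (fun i => (hper i).2) hp hsimple V fun i => ?_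
    obtain ⟨a, b, hab⟩ := ht i
    obtain ⟨δ, hδK, hδ⟩ := Pool.Agent.TH504.CB.exists_derivationK (K := K)
      (v := fun _ : Unit => Z i a b) ((algebraicIndependent_unique_type_iff).2 hab) (fun _ => 1)
    refine ⟨δ, raises_of_filtration hK δ fun x hx => hδK ⟨x, hx⟩, fun h => ?_⟩
    have h1 := congrFun (congrFun h a) b
    rw [Matrix.map_apply, hδ ()] at h1
    exact one_ne_zero h1

end Pool.Agent.Results.MP_1c689d_ag.SymplecticTimesVariety
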